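import Mathlib

set_option autoImplicit false

/-! Weights with few dilates: the abstract argument (helper95). `A` is the set of the good multipliers. -/
namespace Pool.Agent.Helper95.MC
open Finset

/-- almost invariance under dilations -/
def AInv (K : ℕ) (F : Finset ℕ) : Prop :=
  0 ∉ F ∧ ∀ k, 1 ≤ k → k ≤ K → K * (F.filter (fun n => k * n ∉ F)).card ≤ F.card

lemma two_card_lt (T : Finset ℕ) :
    2 * ((T ×ˢ T).filter (fun z : ℕ × ℕ => z.1 < z.2)).card ≤ T.card ^ 2 := by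
  classical
  have h1 : ((T ×ˢ T).filter (fun z : ℕ × ℕ => z.1 < z.2)).card =
      ((T ×ˢ T).filter (fun z : ℕ × ℕ => z.2 < z.1)).card := by
    refine card_bij' (fun z _ => (z.2, z.1)) (fun z _ => (z.2, z.1)) ?_ ?_ ?_ ?_
    · intro z hz
      simp only [mem_filter, mem_product] at hz ⊢
      exact ⟨⟨hz.1.2, hz.1.1⟩, hz.2⟩
    · intro z hz
      simp only [mem_filter, mem_product] at hz ⊢
      exact ⟨⟨hz.1.2, hz.1.1⟩, hz.2⟩
    · intro z _; rfl
    · intro z _; rfl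
  have h2 : Disjoint ((T ×ˢ T).filter (fun z : ℕ × ℕ => z.1 < z.2))
      ((T ×ˢ T).filter (fun z : ℕ × ℕ => z.2 < z.1)) := by
    rw [disjoint_filter]
    intro z _ h
    omega
  have h3 : (((T ×ˢ T).filter (fun z : ℕ × ℕ => z.1 < z.2)) ∪
      ((T ×ˢ T).filter (fun z : ℕ × ℕ => z.2 < z.1))).card ≤ (T ×ˢ T).card := by
    refine card_le_card ?_
    intro z hz
    simp only [mem_union, mem_filter] at hz
    rcases hz with h | h <;> exact h.1
  rw [card_union_of_disjoint h2, card_product] at h3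
  nlinarith

lemma bad_le {ε : ℝ} (hε : 0 < ε) {K : ℕ} (hK2 : 1 / ε ≤ K) {F : Finset ℕ} (hF : AInv K F) {d : ℕ}
    (hd : 1 ≤ d) (hdK : d ≤ K) : ((F.filter (fun n => d * n ∉ F)).card : ℝ) ≤ ε * F.card := by
  have h := hF.2 d hd hdK
  have h' : (K : ℝ) * ((F.filter (fun n => d * n ∉ F)).card : ℝ) ≤ F.card := by exact_mod_cast h
  have h2 : 1 ≤ ε * K := by
    rw [div_le_iff₀ hε] at hK2
    linarith
  have h3 : 0 ≤ ((F.filter (fun n => d * n ∉ F)).card : ℝ) := Nat.cast_nonneg _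
  calc ((F.filter (fun n => d * n ∉ F)).card : ℝ) ≤ (ε * K) * ((F.filter (fun n => d * n ∉ F)).card : ℝ) := by
        nlinarith
    _ = ε * (K * ((F.filter (fun n => d * n ∉ F)).card : ℝ)) := by ring
    _ ≤ ε * F.card := mul_le_mul_of_nonneg_left h' hε.le

/-- the sum over the elements `t` of `F` with `d t ∈ F` -/
lemma sum_dil_le (F : Finset ℕ) (d : ℕ) (hd : 1 ≤ d) (W : ℕ → ℝ) (hW : ∀ n, 0 ≤ W n) :
    ∑ t ∈ F.filter (fun n => d * n ∈ F), W (d * t) ≤ ∑ n ∈ F, W n := by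
  classical
  have h1 : ∑ t ∈ F.filter (fun n => d * n ∈ F), W (d * t) =
      ∑ n ∈ (F.filter (fun n => d * n ∈ F)).image (fun t => d * t), W n := by
    rw [sum_image]
    intro x _ y _ h
    exact Nat.eq_of_mul_eq_mul_left hd h
  rw [h1]
  refine sum_le_sum_of_subset_of_nonneg ?_ (fun n _ _ => hW n)
  intro n hn
  rw [mem_image] at hn
  obtain ⟨t, ht, rfl⟩ := hn
  exact (mem_filter.1 ht).2

lemma sum_le_dil {ε : ℝ} (hε : 0 < ε) {K : ℕ} (hK2 : 1 / ε ≤ K) {F : Finset ℕ} (hF : AInv K F) {d : ℕ}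
    (hd : 1 ≤ d) (hdK : d ≤ K) (ψ : ℕ → ℝ) (h0 : ∀ n, 0 ≤ ψ n) (h1 : ∀ n, ψ n ≤ 1) :
    ∑ n ∈ F, ψ n ≤ ∑ t ∈ F, ψ (d * t) + ε * F.card := by
  classical
  set E := F.filter (fun n => d * n ∈ F) with hE
  set I := E.image (fun t => d * t) with hI
  have hIF : I ⊆ F := by
    intro n hn
    rw [hI, mem_image] at hn
    obtain ⟨t, ht, rfl⟩ := hn
    exact (mem_filter.1 ht).2
  have hinj : Set.InjOn (fun t => d * t) (E : Set ℕ) := by
    intro x _ y _ h
    exact Nat.eq_of_mul_eq_mul_left hd h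
  have hcI : I.card = E.card := card_image_of_injOn hinj
  have hcE : E.card + (F.filter (fun n => d * n ∉ F)).card = F.card := by
    rw [hE]
    exact card_filter_add_card_filter_not _
  have hsI : ∑ n ∈ I, ψ n = ∑ t ∈ E, ψ (d * t) := by
    rw [hI, sum_image]
    intro x hx y hy h
    exact hinj hx hy h
  have hsE : ∑ t ∈ E, ψ (d * t) ≤ ∑ t ∈ F, ψ (d * t) :=
    sum_le_sum_of_subset_of_nonneg (filter_subset _ _) (fun n _ _ => h0 _)
  have hsd : ∑ n ∈ F \ I, ψ n ≤ ((F \ I).card : ℝ) := by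
    calc ∑ n ∈ F \ I, ψ n ≤ ∑ _n ∈ F \ I, (1 : ℝ) := sum_le_sum (fun n _ => h1 n)
      _ = _ := by simp
  have hcd : (F \ I).card = (F.filter (fun n => d * n ∉ F)).card := by
    rw [card_sdiff_of_subset hIF, hcI]
    omega
  have hsplit : ∑ n ∈ F \ I, ψ n + ∑ n ∈ I, ψ n = ∑ n ∈ F, ψ n := sum_sdiff hIF
  have hb := bad_le hε hK2 hF hd hdK
  rw [hcd] at hsd
  linarith

open Classical in
/-- abstract property: any `n` positive integers have a proportion of at least `ρ - ε` of the pairs with the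
difference in `A`, also after dilations. -/
lemma weights (A : ℕ → Prop) (ρ ε : ℝ) (hρ : 0 ≤ ρ) (hρ1 : ρ ≤ 1) (hε : 0 < ε) (R : ℕ) (T : Finset ℕ)
    (hT : T ⊆ range R) (hT2 : 2 ≤ T.card)
    (hA : ∀ t : ℕ, 1 ≤ t → (ρ - ε) * ((T.card : ℝ) ^ 2 / 2) ≤
      (((T ×ˢ T).filter (fun z => z.1 < z.2 ∧ A (t * (z.2 - z.1)))).card : ℝ))
    (ψ : ℕ → ℝ) (h0 : ∀ n, 0 ≤ ψ n) (h1 : ∀ n, ψ n ≤ 1)
    (hψ : ∀ y ∈ T, ∀ z ∈ T, ∀ y' ∈ T, ∀ z' ∈ T, y < z → y' < z' → ∀ n, 1 ≤ n →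
      |ψ ((z - y) * n) - ψ ((z' - y') * n)| ≤ ε)
    (K : ℕ) (hK : R ≤ K) (hK2 : 1 / ε ≤ K) (F : Finset ℕ) (hF : AInv K F) :
    ρ * ∑ n ∈ F, ψ n - 4 * ε * F.card ≤ ∑ n ∈ F.filter A, ψ n := by
  set P := (T ×ˢ T).filter (fun z : ℕ × ℕ => z.1 < z.2) with hP
  have hPn : P.Nonempty := by
    obtain ⟨x, hx, y, hy, hxy⟩ := one_lt_card.1 (show 1 < T.card by omega)
    rcases lt_or_gt_of_ne hxy with h | h
    · exact ⟨(x, y), by rw [hP, mem_filter, mem_product]; exact ⟨⟨hx, hy⟩, h⟩⟩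
    · exact ⟨(y, x), by rw [hP, mem_filter, mem_product]; exact ⟨⟨hy, hx⟩, h⟩⟩
  have hPc : (0 : ℝ) < P.card := by exact_mod_cast hPn.card_pos
  have hPT : (P.card : ℝ) ≤ (T.card : ℝ) ^ 2 / 2 := by
    have h := two_card_lt T
    have h' : (2 : ℝ) * (P.card : ℝ) ≤ (T.card : ℝ) ^ 2 := by exact_mod_cast h
    linarith
  have hPd : ∀ p ∈ P, 1 ≤ p.2 - p.1 ∧ p.2 - p.1 ≤ K := by
    intro p hp
    rw [hP, mem_filter, mem_product] at hp
    have h2 := mem_range.1 (hT hp.1.2)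
    constructor
    · omega
    · omega
  obtain ⟨p0, hp0⟩ := hPn
  set d0 := p0.2 - p0.1 with hd0
  have hd01 := hPd p0 hp0
  set W : ℕ → ℝ := fun n => if A n then ψ n else 0 with hW
  have hW0 : ∀ n, 0 ≤ W n := by
    intro n
    simp only [hW]
    split_ifs
    · exact h0 n
    · exact le_rfl
  have hWs : ∑ n ∈ F, W n = ∑ n ∈ F.filter A, ψ n := by
    rw [sum_filter]
  have hFc : (0 : ℝ) ≤ F.card := Nat.cast_nonneg _
  have hpos : ∀ t ∈ F, 1 ≤ t := by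
    intro t ht
    by_contra h
    have : t = 0 := by omega
    exact hF.1 (this ▸ ht)
  -- Step C
  have hC : ∀ p ∈ P, ∑ t ∈ F, (if A (t * (p.2 - p.1)) then ψ (d0 * t) else 0) ≤
      ∑ n ∈ F, W n + 2 * ε * F.card := by
    intro p hp
    obtain ⟨hd1, hdK⟩ := hPd p hp
    set d := p.2 - p.1 with hd
    have hpP := hp
    rw [hP, mem_filter, mem_product] at hpP
    have hp0P := hp0
    rw [hP, mem_filter, mem_product] at hp0P
    have hsplit := sum_filter_add_sum_filter_not F (fun n => d * n ∈ F)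
      (fun t => if A (t * d) then ψ (d0 * t) else 0)
    have hb := bad_le hε hK2 hF hd1 hdK
    have e1 : ∑ t ∈ F.filter (fun n => ¬ (d * n ∈ F)), (if A (t * d) then ψ (d0 * t) else 0) ≤
        ε * F.card := by
      refine le_trans (sum_le_sum (g := fun _ => (1 : ℝ)) ?_) (by simpa using hb)
      intro t _
      split_ifs
      · exact h1 _
      · exact zero_le_one
    have e2 : ∑ t ∈ F.filter (fun n => d * n ∈ F), (if A (t * d) then ψ (d0 * t) else 0) ≤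
        ∑ t ∈ F.filter (fun n => d * n ∈ F), (W (d * t) + ε) := by
      refine sum_le_sum ?_
      intro t ht
      have ht1 := hpos t (mem_filter.1 ht).1
      rw [hW]
      simp only
      rw [mul_comm t d]
      split_ifs with hAt
      · have h3 := hψ p.1 hpP.1.1 p.2 hpP.1.2 p0.1 hp0P.1.1 p0.2 hp0P.1.2 hpP.2 hp0P.2 t ht1
        have h4 := (abs_le.1 h3).1
        rw [← hd, ← hd0] at h4
        linarith
      · linarith
    have e3 : ∑ t ∈ F.filter (fun n => d * n ∈ F), (W (d * t) + ε) ≤ ∑ n ∈ F, W n + ε * F.card := by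
      rw [sum_add_distrib]
      have h5 := sum_dil_le F d hd1 W hW0
      have h6 : ∑ _t ∈ F.filter (fun n => d * n ∈ F), ε ≤ ε * F.card := by
        rw [sum_const, nsmul_eq_mul, mul_comm]
        refine mul_le_mul_of_nonneg_left ?_ hε.le
        exact_mod_cast card_filter_le _ _
      linarith
    linarith
  -- Step D
  have hD : (ρ - ε) * P.card * ∑ t ∈ F, ψ (d0 * t) ≤
      ∑ p ∈ P, ∑ t ∈ F, (if A (t * (p.2 - p.1)) then ψ (d0 * t) else 0) := by
    rw [sum_comm, mul_sum]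
    refine sum_le_sum ?_
    intro t ht
    have ht1 := hpos t ht
    have e1 : ∑ p ∈ P, (if A (t * (p.2 - p.1)) then ψ (d0 * t) else 0) =
        ((P.filter (fun p => A (t * (p.2 - p.1)))).card : ℝ) * ψ (d0 * t) := by
      rw [← sum_filter, sum_const, nsmul_eq_mul]
    rw [e1]
    refine mul_le_mul_of_nonneg_right ?_ (h0 _)
    have e2 : P.filter (fun p => A (t * (p.2 - p.1))) =
        (T ×ˢ T).filter (fun z => z.1 < z.2 ∧ A (t * (z.2 - z.1))) := by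
      rw [hP, filter_filter]
    rw [e2]
    by_cases hr : 0 ≤ ρ - ε
    · exact le_trans (mul_le_mul_of_nonneg_left hPT hr) (hA t ht1)
    · push Not at hr
      have h7 : (ρ - ε) * (P.card : ℝ) ≤ 0 := mul_nonpos_of_nonpos_of_nonneg hr.le hPc.le
      exact h7.trans (Nat.cast_nonneg _)
  have hE : ∑ p ∈ P, ∑ t ∈ F, (if A (t * (p.2 - p.1)) then ψ (d0 * t) else 0) ≤
      (P.card : ℝ) * (∑ n ∈ F, W n + 2 * ε * F.card) := by
    calc _ ≤ ∑ _p ∈ P, (∑ n ∈ F, W n + 2 * ε * F.card) := sum_le_sum hC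
      _ = _ := by rw [sum_const, nsmul_eq_mul]
  have hG : (ρ - ε) * ∑ t ∈ F, ψ (d0 * t) ≤ ∑ n ∈ F, W n + 2 * ε * F.card := by
    have h8 := hD.trans hE
    have h9 : (P.card : ℝ) * ((ρ - ε) * ∑ t ∈ F, ψ (d0 * t)) ≤
        (P.card : ℝ) * (∑ n ∈ F, W n + 2 * ε * F.card) := by linarith
    exact le_of_mul_le_mul_left h9 hPc
  have hH : ∑ t ∈ F, ψ (d0 * t) ≤ F.card := by
    calc ∑ t ∈ F, ψ (d0 * t) ≤ ∑ _t ∈ F, (1 : ℝ) := sum_le_sum (fun t _ => h1 _)
      _ = _ := by simp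
  have hI := sum_le_dil hε hK2 hF hd01.1 hd01.2 ψ h0 h1
  rw [← hWs]
  have hJ : ρ * ∑ n ∈ F, ψ n ≤ ρ * (∑ t ∈ F, ψ (d0 * t) + ε * F.card) :=
    mul_le_mul_of_nonneg_left hI hρ
  have hK3 : ρ * (ε * F.card) ≤ ε * F.card := by
    have : 0 ≤ ε * (F.card : ℝ) := mul_nonneg hε.le hFc
    nlinarith
  have hL : ε * ∑ t ∈ F, ψ (d0 * t) ≤ ε * F.card := mul_le_mul_of_nonneg_left hH hε.le
  nlinarith

end Pool.Agent.Helper95.MC
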