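import Pool.Graph.R_pool_sql_team_seeded_1e53cb71.Results.MP_70e905_nt.SimultaneousMultiples
import Pool.Graph.R_pool_sql_team_22c7b01f.H23.Ramsey
import Pool.Agent.Helper95.MC.Main

set_option autoImplicit false

/-! Prime gaps and multiplicatively structured weights (helper95). -/
namespace Pool.Agent.Helper95.MC
open Finset Filter

open Pool.Agent.Results.MP_70e905_nt.SimultaneousMultiples (IsGap Ramsey4 goodPairs)

/-- all the multiples `b i * n` are gaps -/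
def Good (N a : ℕ) {k : ℕ} (b : Fin k → ℕ) (n : ℕ) : Prop := ∀ i, IsGap N a (b i * n)

lemma mono (m n : ℕ) : ∃ R : ℕ, ∀ κ : ℕ → Fin m, ∃ T ⊆ range R, T.card = n ∧
    ∃ c, ∀ y ∈ T, ∀ z ∈ T, y < z → κ (z - y) = c := by
  obtain ⟨R, hR⟩ := Pool.Agent.H23.ramsey Unit (Fin m) n
  refine ⟨R, fun κ => ?_⟩
  obtain ⟨-, b, T, hT, hTc, -, h⟩ := hR ℕ (range R) (fun _ => ()) (fun v w => κ (v - w)) (by simp)
  exact ⟨T, hT, hTc, b, fun y hy z hz hyz => h z hz y hy hyz⟩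

lemma ramsey4_ge {k R : ℕ} (hk : 1 ≤ k) (h : Ramsey4 k R) : 4 ≤ R := by
  obtain ⟨e, -, -⟩ := h (fun _ _ => ⟨0, hk⟩) (fun _ _ => rfl)
  have := Fintype.card_le_of_embedding e
  simpa using this

lemma exists_size (C δ ε : ℝ) (hδ : 0 < δ) (hε : 0 < ε) : ∃ n : ℕ, 2 ≤ n ∧ C * (n : ℝ) ^ (-δ) ≤ ε := by
  have h1 : Tendsto (fun n : ℕ => C * (n : ℝ) ^ (-δ)) atTop (nhds (C * 0)) :=
    ((tendsto_rpow_neg_atTop hδ).comp tendsto_natCast_atTop_atTop).const_mul C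
  rw [mul_zero] at h1
  have h2 := (h1.eventually (ge_mem_nhds hε)).and (eventually_ge_atTop 2)
  obtain ⟨n, hn, hn2⟩ := h2.exists
  exact ⟨n, hn2, hn⟩

open Classical in
/-- pairs of the dilates of a fixed set -/
lemma pairs_dil (k R : ℕ) (hk : 1 ≤ k) (hR : Ramsey4 k R) (ε : ℝ) (hε : 0 < ε) :
    ∃ n : ℕ, 2 ≤ n ∧ ∀ N a : ℕ, Squarefree N → 6 ∣ N → a.Coprime N → ∀ b : Fin k → ℕ, (∀ i, 1 ≤ b i) →
      ∀ T : Finset ℕ, T.card = n → ∀ t : ℕ, 1 ≤ t →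
      (1 / ((R : ℝ) - 1) - ε) * ((T.card : ℝ) ^ 2 / 2) ≤
      (((T ×ˢ T).filter (fun z => z.1 < z.2 ∧ Good N a b (t * (z.2 - z.1)))).card : ℝ) := by
  classical
  obtain ⟨C, δ, hδ, h⟩ := (Pool.Agent.Results.MP_70e905_nt.SimultaneousMultiples.result.2.2 k R hk hR).1
  obtain ⟨n, hn2, hn⟩ := exists_size C δ ε hδ hε
  refine ⟨n, hn2, fun N a hsq h6 ha b hb T hT t ht => ?_⟩
  have hinj : Function.Injective (fun x : ℕ => t * x) := fun x y h => Nat.eq_of_mul_eq_mul_left ht h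
  have hc : (T.image (fun x => t * x)).card = n := by rw [card_image_of_injective _ hinj, hT]
  have h1 := (h N a hsq h6 ha b hb).2 (T.image (fun x => t * x)) (by omega)
  rw [hc] at h1
  have h2 : (1 / ((R : ℝ) - 1) - ε) * ((T.card : ℝ) ^ 2 / 2) ≤
      (1 / ((R : ℝ) - 1) - C * (n : ℝ) ^ (-δ)) * ((n : ℝ) ^ 2 / 2) := by
    rw [hT]
    refine mul_le_mul_of_nonneg_right ?_ (by positivity)
    linarith
  refine h2.trans (h1.trans ?_)
  unfold goodPairs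
  rw [Nat.cast_le]
  refine card_le_card_of_surjOn (fun z => (t * z.1, t * z.2)) ?_
  intro z hz
  simp only [coe_filter, mem_product, mem_image, Set.mem_ofPred_eq] at hz
  obtain ⟨⟨⟨x, hx, hx1⟩, ⟨y, hy, hy1⟩⟩, hlt, hg⟩ := hz
  rw [Set.mem_image]
  refine ⟨(x, y), ?_, ?_⟩
  · simp only [coe_filter, mem_product, Set.mem_ofPred_eq]
    refine ⟨⟨hx, hy⟩, ?_, fun i => ?_⟩
    · rw [← hx1, ← hy1] at hlt
      exact lt_of_mul_lt_mul_left hlt (Nat.zero_le t)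
    · have := hg i
      rw [← hx1, ← hy1, ← Nat.mul_sub] at this
      exact this
  · exact Prod.ext hx1 hy1

open Classical in
/-- Part 1: weights with few dilates -/
theorem part1 (k R : ℕ) (hk : 1 ≤ k) (hR : Ramsey4 k R) (m : ℕ) (ε : ℝ) (hε : 0 < ε) :
    ∃ K : ℕ, 1 ≤ K ∧ ∀ N a : ℕ, Squarefree N → 6 ∣ N → a.Coprime N → ∀ b : Fin k → ℕ, (∀ i, 1 ≤ b i) →
      ∀ ψ : ℕ → ℝ, (∀ n, 0 ≤ ψ n) → (∀ n, ψ n ≤ 1) →
      (∃ κ : ℕ → Fin m, ∀ c d, 1 ≤ c → c ≤ K → 1 ≤ d → d ≤ K → κ c = κ d → ∀ n, 1 ≤ n →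
        |ψ (c * n) - ψ (d * n)| ≤ ε) →
      ∀ F : Finset ℕ, AInv K F →
      1 / ((R : ℝ) - 1) * ∑ n ∈ F, ψ n - 4 * ε * F.card ≤
        ∑ n ∈ F.filter (Good N a b), ψ n := by
  obtain ⟨n, hn2, hn⟩ := pairs_dil k R hk hR ε hε
  obtain ⟨S, hS⟩ := mono m n
  obtain ⟨K1, hK1⟩ := exists_nat_ge (1 / ε)
  have hR4 := ramsey4_ge hk hR
  have hR4' : (4 : ℝ) ≤ R := by exact_mod_cast hR4
  refine ⟨S + K1 + 1, by omega, fun N a hsq h6 ha b hb ψ h0 h1 hκ F hF => ?_⟩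
  obtain ⟨κ, hκ⟩ := hκ
  obtain ⟨T, hT, hTc, c, hc⟩ := hS κ
  refine weights (Good N a b) (1 / ((R : ℝ) - 1)) ε ?_ ?_ hε S T hT (by omega)
    (fun t ht => (hn N a hsq h6 ha b hb T hTc t ht).trans (Nat.cast_le.2 (card_le_card fun z hz => by
      rw [mem_filter] at hz ⊢; exact hz))) ψ h0 h1 ?_ (S + K1 + 1) (by omega) ?_ F hF
  · exact div_nonneg zero_le_one (by linarith)
  · rw [div_le_one (by linarith)]
    linarith
  · intro y hy z hz y' hy' z' hz' h h' n hn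
    have h3 := mem_range.1 (hT hz)
    have h4 := mem_range.1 (hT hz')
    exact hκ _ _ (by omega) (by omega) (by omega) (by omega)
      ((hc y hy z hz h).trans (hc y' hy' z' hz' h').symm) n hn
  · push_cast
    have : (0 : ℝ) ≤ S := Nat.cast_nonneg _
    linarith

open Classical in
/-- Part 2: the classes of a multiplicative map -/
theorem part2 (k R : ℕ) (hk : 1 ≤ k) (hR : Ramsey4 k R) (m : ℕ) (ε : ℝ) (hε : 0 < ε) :
    ∃ K : ℕ, 1 ≤ K ∧ ∀ N a : ℕ, Squarefree N → 6 ∣ N → a.Coprime N → ∀ b : Fin k → ℕ, (∀ i, 1 ≤ b i) →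
      ∀ (G : Type) [Mul G] (f : ℕ → G), (∀ x y, 1 ≤ x → 1 ≤ y → f (x * y) = f x * f y) →
      ((Icc 1 K).image f).card ≤ m → ∀ g : G, ∀ F : Finset ℕ, AInv K F →
      1 / ((R : ℝ) - 1) * (F.filter (fun n => f n = g)).card - ε * F.card ≤
        ((F.filter (fun n => f n = g ∧ Good N a b n)).card : ℝ) := by
  obtain ⟨K, hK1, hK⟩ := part1 k R hk hR m (ε / 4) (by positivity)
  refine ⟨K, hK1, fun N a hsq h6 ha b hb G _ f hf hG g F hF => ?_⟩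
  set I := (Icc 1 K).image f with hI
  have hIn : I.Nonempty := ⟨f 1, mem_image.2 ⟨1, mem_Icc.2 ⟨le_rfl, hK1⟩, rfl⟩⟩
  have hm' : 0 < m := lt_of_lt_of_le hIn.card_pos hG
  · obtain ⟨e⟩ : Nonempty (I ↪ Fin m) := by
      rw [Function.Embedding.nonempty_iff_card_le]
      simpa using hG
    have h := hK N a hsq h6 ha b hb (fun n => if f n = g then 1 else 0)
      (fun n => by split_ifs <;> norm_num) (fun n => by split_ifs <;> norm_num)
      ⟨fun n => if hn : f n ∈ I then e ⟨f n, hn⟩ else ⟨0, hm'⟩, fun c d hc hcK hd hdK hcd n hn => ?_⟩ F hF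
    · have e1 : ∑ n ∈ F, (if f n = g then (1 : ℝ) else 0) = ((F.filter (fun n => f n = g)).card : ℝ) := by
        rw [← sum_filter, sum_const, nsmul_eq_mul, mul_one]
      have e2 : ∑ n ∈ F.filter (Good N a b), (if f n = g then (1 : ℝ) else 0) =
          ((F.filter (fun n => f n = g ∧ Good N a b n)).card : ℝ) := by
        rw [← sum_filter, sum_const, nsmul_eq_mul, mul_one, filter_filter]
        congr 2
        ext n
        simp only [mem_filter]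
        tauto
      rw [e1, e2] at h
      linarith
    · have hcI : f c ∈ I := mem_image.2 ⟨c, mem_Icc.2 ⟨hc, hcK⟩, rfl⟩
      have hdI : f d ∈ I := mem_image.2 ⟨d, mem_Icc.2 ⟨hd, hdK⟩, rfl⟩
      simp only [dif_pos hcI, dif_pos hdI] at hcd
      have h1 : f c = f d := congrArg Subtype.val (e.injective hcd)
      simp only [hf c n hc hn, hf d n hd hn, h1, sub_self, abs_zero]
      positivity

lemma map_pow' {G : Type} [Group G] (f : ℕ → G) (hf : ∀ x y, 1 ≤ x → 1 ≤ y → f (x * y) = f x * f y)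
    (x : ℕ) (hx : 1 ≤ x) (j : ℕ) : f (x ^ j) = f x ^ j := by
  have h1 : f 1 = 1 := by
    have := hf 1 1 le_rfl le_rfl
    rw [mul_one] at this
    exact (mul_eq_left.1 this.symm)
  induction j with
  | zero => simpa using h1
  | succ j ih => rw [pow_succ, hf _ _ (Nat.one_le_pow _ _ hx) hx, ih, pow_succ]

/-- Part 3: one of the first multiples is good and in the class -/
theorem part3 (k : ℕ) (hk : 1 ≤ k) (G : Type) [Group G] [Finite G] (f : ℕ → G)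
    (hf : ∀ x y, 1 ≤ x → 1 ≤ y → f (x * y) = f x * f y) :
    ∃ Q : ℕ, 1 ≤ Q ∧ ∀ N a : ℕ, Squarefree N → 6 ∣ N → a.Coprime N → ∀ b : Fin k → ℕ, (∀ i, 1 ≤ b i) →
      ∀ n₀ : ℕ, 1 ≤ n₀ → ∀ s : ℕ, 1 ≤ s → ∃ q : ℕ, 1 ≤ q ∧ q ≤ Q ∧ f (q * s) = f n₀ ∧
        Good N a b (q * s) := by
  classical
  have := Fintype.ofFinite G
  obtain ⟨R, hR⟩ := Pool.Agent.Results.MP_70e905_nt.SimultaneousMultiples.result.1 k hk
  have hR4 := ramsey4_ge hk hR
  have hR4' : (4 : ℝ) ≤ R := by exact_mod_cast hR4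
  have hρ : 0 < 1 / ((R : ℝ) - 1) := div_pos one_pos (by linarith)
  obtain ⟨n, hn2, hn⟩ := pairs_dil k R hk hR (1 / ((R : ℝ) - 1) / 2) (by positivity)
  obtain ⟨S, hS⟩ := mono (Fintype.card G) n
  let e : G ≃ Fin (Fintype.card G) := Fintype.equivFin G
  obtain ⟨T, hT, hTc, c, hc⟩ := hS (fun n => e (f n))
  obtain ⟨g0, hc'⟩ : ∃ g0, ∀ y ∈ T, ∀ z ∈ T, y < z → f (z - y) = g0 := by
    refine ⟨e.symm c, ?_⟩
    intro y hy z hz h
    rw [← hc y hy z hz h, Equiv.symm_apply_apply]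
  -- representatives
  let rep : G → ℕ := fun g => if h : ∃ u, 1 ≤ u ∧ f u = g then h.choose else 1
  have hrep : ∀ u, 1 ≤ u → 1 ≤ rep (f u) ∧ f (rep (f u)) = f u := by
    intro u hu
    have h : ∃ v, 1 ≤ v ∧ f v = f u := ⟨u, hu, rfl⟩
    simp only [rep, dif_pos h]
    exact h.choose_spec
  set M := univ.sup rep with hM
  have hrepM : ∀ g, rep g ≤ M := fun g => le_sup (f := rep) (mem_univ g)
  refine ⟨M * S + 1, by omega, fun N a hsq h6 ha b hb n₀ hn₀ s hs => ?_⟩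
  -- a pair of T
  obtain ⟨x₁, hx₁, y₁, hy₁, hxy⟩ : ∃ x₁ ∈ T, ∃ y₁ ∈ T, x₁ < y₁ := by
    obtain ⟨x, hx, y, hy, hxy⟩ := one_lt_card.1 (show 1 < T.card by omega)
    rcases lt_or_gt_of_ne hxy with h | h
    · exact ⟨x, hx, y, hy, h⟩
    · exact ⟨y, hy, x, hx, h⟩
  set d0 := y₁ - x₁ with hd0
  have hd01 : 1 ≤ d0 := by omega
  have hfd0 : f d0 = g0 := hc' x₁ hx₁ y₁ hy₁ hxy
  obtain ⟨o, hod⟩ : ∃ o, o = Fintype.card G := ⟨_, rfl⟩
  have ho : 1 ≤ o := by rw [hod]; exact Fintype.card_pos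
  have hinv : ∀ g : G, g ^ (o - 1) = g⁻¹ := by
    intro g
    have h1 : g ^ (o - 1) * g = 1 := by
      rw [← pow_succ, Nat.sub_add_cancel ho, hod, pow_card_eq_one]
    exact eq_inv_of_mul_eq_one_left h1
  set u := rep (f (d0 ^ (o - 1) * n₀ * s ^ (o - 1))) with hu
  have hpos : 1 ≤ d0 ^ (o - 1) * n₀ * s ^ (o - 1) :=
    Nat.mul_pos (Nat.mul_pos (Nat.one_le_pow _ _ hd01) hn₀) (Nat.one_le_pow _ _ hs)
  obtain ⟨hu1, hu2⟩ := hrep _ hpos
  rw [← hu] at hu1 hu2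
  have hfu : f u = g0⁻¹ * f n₀ * (f s)⁻¹ := by
    rw [hu2, hf _ _ (Nat.mul_pos (Nat.one_le_pow _ _ hd01) hn₀) (Nat.one_le_pow _ _ hs),
      hf _ _ (Nat.one_le_pow _ _ hd01) hn₀, map_pow' f hf _ hd01, map_pow' f hf _ hs, hinv, hinv, hfd0]
  have hus : 1 ≤ u * s := Nat.mul_pos hu1 hs
  have hpair := hn N a hsq h6 ha b hb T hTc (u * s) hus
  have hpos2 : 0 < (1 / ((R : ℝ) - 1) - 1 / ((R : ℝ) - 1) / 2) * ((T.card : ℝ) ^ 2 / 2) := by
    have : (0 : ℝ) < T.card := by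
      rw [hTc]
      exact_mod_cast (by omega : 0 < n)
    have h3 : 0 < 1 / ((R : ℝ) - 1) - 1 / ((R : ℝ) - 1) / 2 := by linarith
    exact mul_pos h3 (div_pos (pow_pos this 2) two_pos)
  have hpos3 := lt_of_lt_of_le hpos2 hpair
  have hpos4 := Nat.cast_pos.1 hpos3
  obtain ⟨z, hz⟩ := card_pos.1 hpos4
  rw [mem_filter, mem_product] at hz
  obtain ⟨⟨hz1, hz2⟩, hlt, hg⟩ := hz
  have hzS := mem_range.1 (hT hz2)
  refine ⟨u * (z.2 - z.1), Nat.mul_pos hu1 (by omega), ?_, ?_, ?_⟩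
  · have h5 : u * (z.2 - z.1) ≤ M * S := Nat.mul_le_mul (hrepM _) (by omega)
    omega
  · have h6' : u * (z.2 - z.1) * s = (z.2 - z.1) * (u * s) := by rw [mul_comm u, mul_assoc]
    rw [h6', hf _ _ (by omega) hus, hf _ _ hu1 hs, hc' _ hz1 _ hz2 hlt, hfu, inv_mul_cancel_right,
      mul_inv_cancel_left]
  · have h8 : u * (z.2 - z.1) * s = u * s * (z.2 - z.1) := by rw [mul_assoc, mul_comm (z.2 - z.1), mul_assoc]
    rw [h8]
    exact hg

open Classical in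
/-- Part 4: positive lower density -/
theorem part4 (k : ℕ) (hk : 1 ≤ k) (G : Type) [Group G] [Finite G] (f : ℕ → G)
    (hf : ∀ x y, 1 ≤ x → 1 ≤ y → f (x * y) = f x * f y) :
    ∃ Q : ℕ, 1 ≤ Q ∧ ∀ N a : ℕ, Squarefree N → 6 ∣ N → a.Coprime N → ∀ b : Fin k → ℕ, (∀ i, 1 ≤ b i) →
      ∀ n₀ : ℕ, 1 ≤ n₀ → (∀ s : ℕ, 1 ≤ s → ∃ q : ℕ, 1 ≤ q ∧ q ≤ Q ∧ f (q * s) = f n₀ ∧
        Good N a b (q * s)) ∧
      ∀ x : ℕ, x / Q ≤ Q * ((Icc 1 x).filter (fun n => f n = f n₀ ∧ Good N a b n)).card := by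
  obtain ⟨Q, hQ, h⟩ := part3 k hk G f hf
  refine ⟨Q, hQ, fun N a hsq h6 ha b hb n₀ hn₀ => ⟨h N a hsq h6 ha b hb n₀ hn₀, fun x => ?_⟩⟩
  have h' := h N a hsq h6 ha b hb n₀ hn₀
  choose! q hq1 hqQ hqf hqg using h'
  have e1 : (Icc 1 (x / Q)).card = x / Q := by simp
  rw [← e1]
  have hmaps : ∀ s ∈ Icc 1 (x / Q), q s * s ∈
      (Icc 1 x).filter (fun n => f n = f n₀ ∧ Good N a b n) := by
    intro s hs
    rw [mem_Icc] at hs
    rw [mem_filter, mem_Icc]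
    refine ⟨⟨Nat.mul_pos (hq1 s hs.1) hs.1, ?_⟩, hqf s hs.1, hqg s hs.1⟩
    calc q s * s ≤ Q * (x / Q) := Nat.mul_le_mul (hqQ s hs.1) hs.2
      _ ≤ x := Nat.mul_div_le x Q
  refine card_le_mul_card_image_of_maps_to (f := fun s => q s * s) hmaps Q ?_
  intro n hn
  rw [mem_filter, mem_Icc] at hn
  have e2 : (Icc 1 Q).card = Q := by simp
  rw [← e2]
  refine card_le_card_of_injOn q ?_ ?_
  · intro s hs
    simp only [coe_filter, mem_Icc, Set.mem_ofPred_eq] at hs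
    simp only [coe_Icc, Set.mem_Icc]
    exact ⟨hq1 s hs.1.1, hqQ s hs.1.1⟩
  · intro s hs s' hs' hss
    simp only [coe_filter, mem_Icc, Set.mem_ofPred_eq] at hs hs'
    have h3 : q s * s = q s * s' := by
      rw [hs.2]
      rw [show q s = q s' from hss, hs'.2]
    exact Nat.eq_of_mul_eq_mul_left (hq1 s hs.1.1) h3

end Pool.Agent.Helper95.MC
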